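import Pool.Agent.Serre.HFORM

/-!
# Statement-level definitions (types are kept as named definitions so that statements stay short)
-/

open Matrix

namespace SerreQ

open SerreE

/-- `𝔽̄₂` -/
abbrev FF := AlgebraicClosure (ZMod 2)

/-- `GL₂(O)`, `O = ℤ[ω]` -/
def GE : Type := GL (Fin 2) E

instance : Group GE := (inferInstance : Group (GL (Fin 2) E))

/-- the entries of a matrix -/
def ent (g : GE) (i j : Fin 2) : E := Units.val (α := Matrix (Fin 2) (Fin 2) E) g i j

theorem Gam_mul (N : E) {a b : GE} (ha : N ∣ ent a 1 0) (hb : N ∣ ent b 1 0) :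
    N ∣ ent (a * b) 1 0 := (SerreE.Gam0 N).mul_mem' ha hb

theorem Gam_one (N : E) : N ∣ ent 1 1 0 := (SerreE.Gam0 N).one_mem'

theorem Gam_inv (N : E) {a : GE} (ha : N ∣ ent a 1 0) : N ∣ ent a⁻¹ 1 0 :=
  (SerreE.Gam0 N).inv_mem' ha

/-- `Γ₀(N)` -/
def Gam (N : E) : Subgroup GE where
  carrier := {g | N ∣ ent g 1 0}
  mul_mem' := @Gam_mul N
  one_mem' := Gam_one N
  inv_mem' := @Gam_inv N

/-- `Γ₀(N)`, as a type -/
def G (N : E) : Type := Gam N

instance (N : E) : Group (G N) := (inferInstance : Group (Gam N))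

/-- the entries of an element of `Γ₀(N)` -/
def en {N : E} (g : G N) (i j : Fin 2) : E := ent (Subtype.val (p := fun x => x ∈ Gam N) g) i j

/-- `x` is a homomorphism `Γ₀(N) → 𝔽̄₂` which vanishes on all elements of finite order. -/
def IsCls (N : E) (x : G N → FF) : Prop :=
  (∀ a b, x (a * b) = x a + x b) ∧ ∀ g, IsOfFinOrder g → x g = 0

theorem cls_add (N : E) {x y : G N → FF} (hx : IsCls N x) (hy : IsCls N y) : IsCls N (x + y) := by
  obtain ⟨h1, h2⟩ := hx
  obtain ⟨h3, h4⟩ := hy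
  refine ⟨fun a b => ?_, fun g hg => ?_⟩
  · change x (a * b) + y (a * b) = (x a + y a) + (x b + y b)
    rw [h1, h3]; ring
  · change x g + y g = 0
    rw [h2 g hg, h4 g hg, add_zero]

theorem cls_zero (N : E) : IsCls N 0 := ⟨fun _ _ => (add_zero _).symm, fun _ _ => rfl⟩

theorem cls_smul (N : E) (c : FF) {x : G N → FF} (hx : IsCls N x) : IsCls N (c • x) := by
  obtain ⟨h1, h2⟩ := hx
  refine ⟨fun a b => ?_, fun g hg => ?_⟩
  · change c * x (a * b) = c * x a + c * x b
    rw [h1]; ring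
  · change c * x g = 0
    rw [h2 g hg, mul_zero]

/-- `H¹(Y₀(N), 𝔽̄₂)` for the quotient space `Y₀(N) = Γ₀(N) \ ℍ₃`: the homomorphisms
`Γ₀(N) → 𝔽̄₂` which vanish on all elements of finite order. -/
def H (N : E) : Submodule FF (G N → FF) where
  carrier := {x | IsCls N x}
  add_mem' := @cls_add N
  zero_mem' := cls_zero N
  smul_mem' := @cls_smul N

/-- `H¹(Y₀(N), 𝔽̄₂)`, as a type -/
def HY (N : E) : Type := H N

noncomputable instance (N : E) : AddCommGroup (HY N) := (inferInstance : AddCommGroup (H N))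
noncomputable instance (N : E) : Module FF (HY N) := (inferInstance : Module FF (H N))

/-- the values of a class -/
def HY.val {N : E} (h : HY N) : G N → FF := Subtype.val (p := fun x => x ∈ H N) h

theorem HY.mul {N : E} (h : HY N) (a b : G N) : h.val (a * b) = h.val a + h.val b :=
  (Subtype.prop (p := fun x => x ∈ H N) h).1 a b

theorem HY.fin {N : E} (h : HY N) (g : G N) (hg : IsOfFinOrder g) : h.val g = 0 :=
  (Subtype.prop (p := fun x => x ∈ H N) h).2 g hg

/-- the values of a class, in multiplicative notation -/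
noncomputable def HY.homFun {N : E} (h : HY N) (g : G N) : Multiplicative FF :=
  Multiplicative.ofAdd (h.val g)

theorem HY.homFun_mul {N : E} (h : HY N) (a b : G N) :
    h.homFun (a * b) = h.homFun a * h.homFun b := congrArg Multiplicative.ofAdd (h.mul a b)

/-- a class as a homomorphism -/
noncomputable def HY.hom {N : E} (h : HY N) : G N →* Multiplicative FF :=
  MonoidHom.mk' h.homFun h.homFun_mul

theorem Hsub_mul (N π : E) {a b : G N} (ha : π ∣ en a 0 1) (hb : π ∣ en b 0 1) :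
    π ∣ en (a * b) 0 1 := (SerreE.GamUp π).mul_mem' (a := a.val) (b := b.val) ha hb

theorem Hsub_one (N π : E) : π ∣ en (N := N) 1 0 1 := (SerreE.GamUp π).one_mem'

theorem Hsub_inv (N π : E) {a : G N} (ha : π ∣ en a 0 1) : π ∣ en a⁻¹ 0 1 :=
  (SerreE.GamUp π).inv_mem' (x := a.val) ha

/-- `Γ₀(N) ∩ Γ⁰(π)` -/
def Hsub (N π : E) : Subgroup (G N) where
  carrier := {g | π ∣ en g 0 1}
  mul_mem' := @Hsub_mul N π
  one_mem' := Hsub_one N π
  inv_mem' := @Hsub_inv N π

/-- `diag(1, π) g = g' diag(1, π)` -/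
def Conj (π : E) {N : E} (g g' : G N) : Prop :=
  en g' 0 0 = en g 0 0 ∧ en g 0 1 = π * en g' 0 1 ∧ en g' 1 0 = π * en g 1 0 ∧ en g' 1 1 = en g 1 1

theorem Conj.unique {π : E} (hπ : π ≠ 0) {N : E} {g g' g'' : G N} (h : Conj π g g')
    (h' : Conj π g g'') : g' = g'' := by
  apply Subtype.ext
  apply Matrix.GeneralLinearGroup.ext
  intro i j
  fin_cases i <;> fin_cases j
  · exact h.1.trans h'.1.symm
  · exact mul_left_cancel₀ hπ (h.2.1.symm.trans h'.2.1)
  · exact h.2.2.1.trans h'.2.2.1.symm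
  · exact h.2.2.2.trans h'.2.2.2.symm

theorem conj_thetaN {N π : E} (hπ : π ≠ 0) (g : Hsub N π) :
    Conj π g.val (SerreE.thetaN N π hπ g) := by
  obtain ⟨a1, a2, a3, a4⟩ := theta_spec π (heckeIncl N π g)
  exact ⟨a1, a2, a3, a4⟩

theorem thetaEx (N π : E) (hπ : π ≠ 0) (g : Hsub N π) : ∃ g', Conj π g.val g' :=
  ⟨_, conj_thetaN hπ g⟩

/-- conjugation by `diag(1, π)`, from `Γ₀(N) ∩ Γ⁰(π)` to `Γ₀(N)`. -/
noncomputable def thetaFun (N π : E) (hπ : π ≠ 0) (g : Hsub N π) : G N :=
  Classical.choose (thetaEx N π hπ g)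

theorem thetaFun_eq {N π : E} (hπ : π ≠ 0) (g : Hsub N π) :
    thetaFun N π hπ g = SerreE.thetaN N π hπ g :=
  (Classical.choose_spec (thetaEx N π hπ g)).unique hπ (conj_thetaN hπ g)

theorem thetaFun_mul (N π : E) (hπ : π ≠ 0) (a b : Hsub N π) :
    thetaFun N π hπ (a * b) = thetaFun N π hπ a * thetaFun N π hπ b := by
  rw [thetaFun_eq hπ, thetaFun_eq hπ, thetaFun_eq hπ]
  exact map_mul (SerreE.thetaN N π hπ) a b

/-- conjugation by `diag(1, π)`, from `Γ₀(N) ∩ Γ⁰(π)` to `Γ₀(N)`. -/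
noncomputable def theta (N π : E) (hπ : π ≠ 0) : Hsub N π →* G N :=
  MonoidHom.mk' (thetaFun N π hπ) (thetaFun_mul N π hπ)

theorem theta_eq {N π : E} (hπ : π ≠ 0) (g : Hsub N π) :
    theta N π hπ g = SerreE.thetaN N π hπ g := thetaFun_eq hπ g

theorem hsub_fin (N π : E) (hπ : π ≠ 0) : (Hsub N π).FiniteIndex :=
  heckeSub_finiteIndex N π hπ

/-- the values of `T_π h`: the pullback of `h` under conjugation by `diag(1, π)`, a homomorphism on
`Γ₀(N) ∩ Γ⁰(π)`, followed by the transfer (corestriction) to `Γ₀(N)`. -/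
noncomputable def heckeVal {N : E} (π : E) (hπ : π ≠ 0) (h : HY N) (g : G N) : FF :=
  have := hsub_fin N π hπ
  Multiplicative.toAdd (MonoidHom.transfer (h.hom.comp (theta N π hπ)) g)

theorem heckeVal_fin {N π : E} (hπ : π ≠ 0) (h : HY N) (g : G N) (hg : IsOfFinOrder g) :
    heckeVal π hπ h g = 0 := by
  have := hsub_fin N π hπ
  have key : MonoidHom.transfer (h.hom.comp (theta N π hπ)) g = 1 := by
    classical
    let _ := (Hsub N π).fintypeQuotientOfFiniteIndex
    rw [MonoidHom.transfer_eq_prod_quotient_orbitRel_zpowers_quot]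
    apply Finset.prod_eq_one
    intro q _
    change Multiplicative.ofAdd (h.val (theta N π hπ _)) = 1
    rw [h.fin]
    · rfl
    · apply MonoidHom.isOfFinOrder
      obtain ⟨n, hn, hn'⟩ := isOfFinOrder_iff_pow_eq_one.mp hg
      rw [isOfFinOrder_iff_pow_eq_one]
      refine ⟨n, hn, Subtype.ext ?_⟩
      have e : ∀ (a b : G N), (a⁻¹ * b * a) ^ n = a⁻¹ * b ^ n * a := by
        intro a b
        have := conj_pow (i := n) (a := a⁻¹) (b := b)
        rwa [inv_inv] at this
      rw [SubmonoidClass.coe_pow, e, ← pow_mul, mul_comm _ n, pow_mul, hn', one_pow, mul_one,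
        inv_mul_cancel]
      rfl
  exact congrArg Multiplicative.toAdd key

theorem heckeVal_mem {N π : E} (hπ : π ≠ 0) (h : HY N) : IsCls N (heckeVal π hπ h) := by
  refine ⟨fun a b => ?_, fun g hg => heckeVal_fin hπ h g hg⟩
  exact congrArg Multiplicative.toAdd (map_mul _ a b)

/-- the Hecke operator `T_π` on `H¹(Y₀(N), 𝔽̄₂)`, as a map. -/
noncomputable def TFun (N : E) (π : E) (hπ : π ≠ 0) (h : HY N) : HY N :=
  Subtype.mk (p := fun x => x ∈ H N) (heckeVal π hπ h) (heckeVal_mem hπ h)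

theorem TFun_lin (N : E) (π : E) (hπ : π ≠ 0) : IsLinearMap FF (TFun N π hπ) where
  map_add a b := by
    have := hsub_fin N π hπ
    apply Subtype.ext
    funext g
    exact congrArg Multiplicative.toAdd
      (transfer_mul' (a.hom.comp (theta N π hπ)) (b.hom.comp (theta N π hπ)) g)
  map_smul c a := by
    have := hsub_fin N π hπ
    apply Subtype.ext
    funext g
    exact congrArg Multiplicative.toAdd
      (transfer_comp (AddMonoidHom.toMultiplicative (AddMonoidHom.mulLeft c))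
        (a.hom.comp (theta N π hπ)) g)

/-- the Hecke operator `T_π` on `H¹(Y₀(N), 𝔽̄₂)`. -/
noncomputable def T (N : E) (π : E) (hπ : π ≠ 0) : HY N →ₗ[FF] HY N :=
  IsLinearMap.mk' (TFun N π hπ) (TFun_lin N π hπ)

/-- the endomorphism ring of `H¹(Y₀(N), 𝔽̄₂)` -/
def EndH (N : E) : Type := Module.End FF (HY N)

noncomputable instance (N : E) : Ring (EndH N) := (inferInstance : Ring (Module.End FF (HY N)))
noncomputable instance (N : E) : Algebra FF (EndH N) :=
  (inferInstance : Algebra FF (Module.End FF (HY N)))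

/-- the primes `π` not dividing `2N`. -/
def GP (N : E) : Type := {π : E // Prime π ∧ ¬ π ∣ 2 * N}

/-- the underlying element -/
def GP.el {N : E} (π : GP N) : E := Subtype.val (p := fun π => Prime π ∧ ¬ π ∣ 2 * N) π

theorem GP.ne {N : E} (π : GP N) : π.el ≠ 0 := (Subtype.prop π).1.ne_zero

/-- `T_π` as an element of the endomorphism ring -/
noncomputable def TE (N : E) (π : GP N) : EndH N := T N π.el π.ne

/-- the Hecke algebra of `H¹(Y₀(N), 𝔽̄₂)`. -/
noncomputable def Hecke (N : E) : Subalgebra FF (EndH N) :=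
  Algebra.adjoin FF (Set.range (TE N))

theorem TE_mem (N : E) (π : GP N) : TE N π ∈ Hecke N := Algebra.subset_adjoin ⟨π, rfl⟩

/-- `T_π` as an element of the Hecke algebra. -/
noncomputable def Tp (N : E) (π : GP N) : Hecke N := ⟨TE N π, TE_mem N π⟩

/-- An eigenform: a homomorphism from the Hecke algebra to `𝔽̄₂`. -/
def Eigenform (N : E) : Type := Hecke N →ₐ[FF] FF

/-- the eigenvalue of `T_π`. -/
noncomputable def Eigenform.ev {N : E} (Φ : Eigenform N) (π : GP N) : FF :=
  DFunLike.coe (F := Hecke N →ₐ[FF] FF) Φ (Tp N π)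

/-- the relative norm `O[i] → O`, `x + y i ↦ x² + y²`. -/
def nm (w : Gi E) : E := w.re * w.re + w.im * w.im

/-- `w` is congruent to `z` modulo `f` in `O[i]`. -/
def Cong (f : E) (w z : Gi E) : Prop := f ∣ w.re - z.re ∧ f ∣ w.im - z.im

/-- `χ` is a character of `(O[i]/f)ˣ` with values in `𝔽̄₂ˣ`, extended by `0` to `O[i]`; it is
non-trivial, trivial on `(O/f)ˣ` and on the units of `O[i]`, and has conductor `f`. -/
structure RingClassChar (f : E) (χ : Gi E → FF) : Prop where
  mul : ∀ w z : Gi E, χ (w * z) = χ w * χ z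
  congr : ∀ w z : Gi E, Cong f w z → χ w = χ z
  supp : ∀ w : Gi E, χ w ≠ 0 ↔ IsCoprime (nm w) f
  base : ∀ a : E, IsCoprime a f → χ ⟨a, 0⟩ = 1
  unit : ∀ v : Gi E, IsUnit v → χ v = 1
  ne : ∃ w : Gi E, IsCoprime (nm w) f ∧ χ w ≠ 1
  cond : ∀ g : E, g ∣ f → ¬ f ∣ g → ∃ w : Gi E, IsCoprime (nm w) f ∧ Cong g w 1 ∧ χ w ≠ 1

/-- the eigenvalues of `Φ` are the Frobenius traces of `Ind χ`: the eigenvalue of `T_π` is
`χ(w) + χ(w̄)` if `π` is the norm of `w` up to a unit, and `0` if `π` is no such norm. -/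
def Attached {N : E} (Φ : Eigenform N) (χ : Gi E → FF) : Prop :=
  ∀ π : GP N, (∀ w : Gi E, Associated (nm w) π.el → Φ.ev π = χ w + χ (star w)) ∧
    ((∀ w : Gi E, ¬ Associated (nm w) π.el) → Φ.ev π = 0)

end SerreQ
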