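import Pool.Agent.SerreQ.Defs
import Pool.Agent.Serre.Main

open Matrix
open scoped QuadraticAlgebra

namespace SerreQ

open SerreE

/-- translation between the two models of `H¹` -/
noncomputable def toOld (N : E) : HY N ≃ₗ[FF] SerreE.H1Y N where
  toFun h := ⟨AddMonoidHom.mk' (fun g => h.val (Additive.toMul g)) (fun a b => h.mul _ _),
    fun g hg => h.fin g hg⟩
  map_add' a b := by
    apply Subtype.ext
    apply AddMonoidHom.ext
    intro g
    rfl
  map_smul' c a := by
    apply Subtype.ext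
    apply AddMonoidHom.ext
    intro g
    rfl
  invFun h := ⟨fun g => h.val (Additive.ofMul g), fun a b => map_add h.val _ _, fun g hg => h.2 g hg⟩
  left_inv h := rfl
  right_inv h := rfl

theorem toOld_apply (N : E) (h : HY N) (g : G N) :
    (toOld N h).val (Additive.ofMul g) = h.val g := rfl

theorem toOld_T (N : E) (π : GP N) (h : HY N) :
    toOld N (T N π.el π.ne h) = SerreE.heckeY N π (toOld N h) := by
  apply Subtype.ext
  apply AddMonoidHom.ext
  intro g
  have := hsub_fin N π.el π.ne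
  have := heckeSub_finiteIndex N π.el π.ne
  have e : h.hom.comp (theta N π.el π.ne) =
      (AddMonoidHom.toMultiplicativeRight (toOld N h).val).comp (SerreE.thetaN N π.el π.ne) := by
    apply MonoidHom.ext
    intro x
    change Multiplicative.ofAdd (h.val (theta N π.el π.ne x)) =
      Multiplicative.ofAdd (h.val (SerreE.thetaN N π.el π.ne x))
    rw [theta_eq]
  change Multiplicative.toAdd (MonoidHom.transfer (h.hom.comp (theta N π.el π.ne)) g) =
    Multiplicative.toAdd (MonoidHom.transfer ((AddMonoidHom.toMultiplicativeRight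
      (toOld N h).val).comp (SerreE.thetaN N π.el π.ne)) g)
  rw [e]
  rfl

/-- translation of endomorphisms -/
noncomputable def endOld (N : E) : EndH N ≃ₐ[FF] Module.End kbar (SerreE.H1Y N) :=
  (toOld N).conjAlgEquiv FF

theorem endOld_TE (N : E) (π : GP N) : endOld N (TE N π) = SerreE.heckeY N π := by
  apply LinearMap.ext
  intro h
  obtain ⟨h', rfl⟩ := (toOld N).surjective h
  rw [← toOld_T]
  change toOld N (T N π.el π.ne ((toOld N).symm (toOld N h'))) = _
  rw [LinearEquiv.symm_apply_apply]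

theorem endOld_mem (N : E) (x : EndH N) (hx : x ∈ Hecke N) : endOld N x ∈ SerreE.HeckeAlg N := by
  unfold Hecke at hx
  induction hx using Algebra.adjoin_induction with
  | mem x hx =>
    obtain ⟨π, rfl⟩ := hx
    rw [endOld_TE]
    exact Algebra.subset_adjoin ⟨π, rfl⟩
  | algebraMap r =>
    rw [AlgEquiv.commutes]
    exact Subalgebra.algebraMap_mem _ r
  | add x y _ _ hx hy =>
    rw [map_add]; exact Subalgebra.add_mem _ hx hy
  | mul x y _ _ hx hy =>
    rw [map_mul]; exact Subalgebra.mul_mem _ hx hy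

/-- translation of the Hecke algebra -/
noncomputable def heckeOld (N : E) : Hecke N →ₐ[FF] SerreE.HeckeAlg N :=
  ((endOld N).toAlgHom.comp (Hecke N).val).codRestrict (SerreE.HeckeAlg N)
    (fun x => endOld_mem N x.val x.2)

theorem heckeOld_Tp (N : E) (π : GP N) : heckeOld N (Tp N π) = SerreE.Tp N π :=
  Subtype.ext (endOld_TE N π)

theorem final_aux (f : E) (hf2 : IsCoprime f 2) (χ : MulChar (Gi (E ⧸ Ideal.span {f})) FF)
    (hχ : χ ≠ 1)
    (hO : ∀ a : E, IsCoprime a f → χ (redGi f (algebraMap E (Gi E) a)) = 1)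
    (hU : ∀ v : (Gi E)ˣ, χ (redGi f v) = 1)
    (hcond : ∀ g : E, g ∣ f → ¬ f ∣ g → ∃ w : Gi E, IsCoprime w.norm f ∧
      algebraMap E (Gi E) g ∣ w - 1 ∧ χ (redGi f w) ≠ 1) :
    ∃ Φ : Hecke (f ^ 2) →ₐ[FF] FF, ∀ π : GP (f ^ 2),
      (∀ w : Gi E, Associated w.norm π.el →
        Φ (Tp (f ^ 2) π) = χ (redGi f w) + χ (redGi f (star w))) ∧
      ((∀ w : Gi E, ¬ Associated w.norm π.el) → Φ (Tp (f ^ 2) π) = 0) := by
  obtain ⟨Φ, hΦ⟩ := main_thm f hf2 χ hχ hO hU hcond
  refine ⟨Φ.comp (heckeOld (f ^ 2)), fun π => ?_⟩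
  have e : (Φ.comp (heckeOld (f ^ 2))) (Tp (f ^ 2) π) = Φ (SerreE.Tp (f ^ 2) π) := by
    rw [AlgHom.comp_apply, heckeOld_Tp]
  rw [e]
  exact hΦ π

theorem redGi_surj (f : E) : Function.Surjective (redGi f) := by
  intro t
  obtain ⟨a, ha⟩ := Ideal.Quotient.mk_surjective t.re
  obtain ⟨b, hb⟩ := Ideal.Quotient.mk_surjective t.im
  exact ⟨⟨a, b⟩, QuadraticAlgebra.ext ha hb⟩

theorem redGi_eq {f : E} {w z : Gi E} (h : redGi f w = redGi f z) :
    algebraMap E (Gi E) f ∣ w - z := by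
  have h1 := congrArg QuadraticAlgebra.re h
  have h2 := congrArg QuadraticAlgebra.im h
  have h1' : Ideal.Quotient.mk (Ideal.span {f}) w.re = Ideal.Quotient.mk (Ideal.span {f}) z.re := h1
  have h2' : Ideal.Quotient.mk (Ideal.span {f}) w.im = Ideal.Quotient.mk (Ideal.span {f}) z.im := h2
  rw [Ideal.Quotient.eq, Ideal.mem_span_singleton] at h1' h2'
  obtain ⟨a, ha⟩ := h1'
  obtain ⟨b, hb⟩ := h2'
  refine ⟨⟨a, b⟩, ?_⟩
  apply QuadraticAlgebra.ext
  · simp [QuadraticAlgebra.algebraMap_eq, ha]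
  · simp [QuadraticAlgebra.algebraMap_eq, hb]

/-- a lift -/
noncomputable def lft (f : E) (t : Gi (E ⧸ Ideal.span {f})) : Gi E :=
  Function.surjInv (redGi_surj f) t

theorem lft_spec (f : E) (t : Gi (E ⧸ Ideal.span {f})) : redGi f (lft f t) = t :=
  Function.surjInv_eq (redGi_surj f) t

theorem nm_eq (w : Gi E) : nm w = w.norm := by
  unfold nm
  rw [QuadraticAlgebra.norm_def]
  ring

theorem cong_iff {f : E} {w z : Gi E} : Cong f w z ↔ algebraMap E (Gi E) f ∣ w - z := by
  constructor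
  · rintro ⟨⟨a, ha⟩, ⟨b, hb⟩⟩
    refine ⟨⟨a, b⟩, ?_⟩
    apply QuadraticAlgebra.ext
    · simp [QuadraticAlgebra.algebraMap_eq, ha]
    · simp [QuadraticAlgebra.algebraMap_eq, hb]
  · rintro ⟨c, hc⟩
    refine ⟨⟨c.re, ?_⟩, ⟨c.im, ?_⟩⟩
    · have := congrArg QuadraticAlgebra.re hc
      simpa [QuadraticAlgebra.algebraMap_eq] using this
    · have := congrArg QuadraticAlgebra.im hc
      simpa [QuadraticAlgebra.algebraMap_eq] using this

theorem RingClassChar.one {f : E} {χ : Gi E → FF} (h : RingClassChar f χ) : χ 1 = 1 :=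
  h.unit 1 isUnit_one

/-- the character of `(E[i]/f)ˣ` given by a ring class character. -/
noncomputable def toMul {f : E} {χ : Gi E → FF} (h : RingClassChar f χ) :
    MulChar (Gi (E ⧸ Ideal.span {f})) FF where
  toFun t := χ (lft f t)
  map_one' := by
    rw [← h.one]
    apply h.congr
    rw [cong_iff]
    apply redGi_eq
    rw [lft_spec, map_one]
  map_mul' a b := by
    rw [← h.mul]
    apply h.congr
    rw [cong_iff]
    apply redGi_eq
    rw [lft_spec, map_mul, lft_spec, lft_spec]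
  map_nonunit' t ht := by
    by_contra hc
    apply ht
    have h1 := (h.supp _).mp hc
    rw [nm_eq] at h1
    have h2 := isUnit_redGi h1
    rwa [lft_spec] at h2

theorem toMul_apply {f : E} {χ : Gi E → FF} (h : RingClassChar f χ) (w : Gi E) :
    toMul h (redGi f w) = χ w := by
  change χ (lft f (redGi f w)) = χ w
  apply h.congr
  rw [cong_iff]
  apply redGi_eq
  rw [lft_spec]

theorem final (f : E) (hf2 : IsCoprime f 2) (χ : Gi E → FF) (h : RingClassChar f χ) :
    ∃ Φ : Eigenform (f ^ 2), Attached Φ χ := by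
  have k1 : toMul h ≠ 1 := by
    intro h1
    obtain ⟨w, hw, hw'⟩ := h.ne
    rw [nm_eq] at hw
    apply hw'
    rw [← toMul_apply h, h1]
    exact MulChar.one_apply (isUnit_redGi hw)
  have k2 : ∀ a : E, IsCoprime a f → toMul h (redGi f (algebraMap E (Gi E) a)) = 1 := by
    intro a ha
    rw [toMul_apply]
    exact h.base a ha
  have k3 : ∀ v : (Gi E)ˣ, toMul h (redGi f v) = 1 := by
    intro v
    rw [toMul_apply]
    exact h.unit v v.isUnit
  have k4 : ∀ g : E, g ∣ f → ¬ f ∣ g → ∃ w : Gi E, IsCoprime w.norm f ∧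
      algebraMap E (Gi E) g ∣ w - 1 ∧ toMul h (redGi f w) ≠ 1 := by
    intro g hg hg'
    obtain ⟨w, h1, h2, h3⟩ := h.cond g hg hg'
    rw [nm_eq] at h1
    rw [cong_iff] at h2
    refine ⟨w, h1, h2, ?_⟩
    rwa [toMul_apply]
  obtain ⟨Φ, hΦ⟩ := final_aux f hf2 (toMul h) k1 k2 k3 k4
  refine ⟨Φ, fun π => ?_⟩
  have h1 := hΦ π
  simp only [toMul_apply h] at h1
  refine ⟨fun w hw => ?_, fun hw => ?_⟩
  · rw [nm_eq] at hw
    exact h1.1 w hw
  · simp only [nm_eq] at hw
    exact h1.2 hw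

end SerreQ
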